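import Mathlib

set_option autoImplicit false
set_option maxHeartbeats 400000

open Filter Topology Finset

namespace Pool.Agent.Results.MP_968b24_an.Weights

/-- `l` is admissible for `s`, the weighted means converging to `L` -/
def Adm (s l : ℕ → ℝ) (L : ℝ) : Prop :=
  (∀ n, 0 < l n) ∧ Tendsto (fun n => ∑ k ∈ range n, l k) atTop atTop ∧
  Tendsto (fun n => (∑ k ∈ range n, l k * s k) / ∑ k ∈ range n, l k) atTop (𝓝 L)

/-- iterated differences -/
def D (l : ℕ → ℝ) : ℕ → ℕ → ℝ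
  | 0 => l
  | k + 1 => fun n => D l k n - D l k (n + 1)

/-- fully monotonic -/
def FM (l : ℕ → ℝ) : Prop := ∀ k n, 0 ≤ D l (k + 1) n

/-- bounded -/
def Bdd (s : ℕ → ℝ) : Prop := ∃ B, ∀ n, |s n| ≤ B

noncomputable def A (s : ℕ → ℝ) (t : ℝ) : ℝ := ∑' k, (1 - t) * t ^ k * s k

theorem geo {t : ℝ} (h0 : 0 ≤ t) (h1 : t < 1) : HasSum (fun k => (1 - t) * t ^ k) 1 := by
  have := (hasSum_geometric_of_lt_one h0 h1).mul_left (1 - t)
  rwa [mul_inv_cancel₀ (by linarith)] at this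

theorem bd {s : ℕ → ℝ} {B t : ℝ} (h : ∀ n, |s n| ≤ B) (h0 : 0 ≤ t) (h1 : t < 1) (k : ℕ) :
    ‖(1 - t) * t ^ k * s k‖ ≤ (1 - t) * t ^ k * B := by
  have : 0 ≤ (1 - t) * t ^ k := mul_nonneg (by linarith) (by positivity)
  rw [Real.norm_eq_abs, abs_mul, abs_of_nonneg this]; gcongr; exact h k

theorem sA {s : ℕ → ℝ} {B t : ℝ} (h : ∀ n, |s n| ≤ B) (h0 : 0 ≤ t) (h1 : t < 1) :
    Summable fun k => (1 - t) * t ^ k * s k :=
  .of_norm_bounded ((geo h0 h1).mul_right B).summable (bd h h0 h1)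

theorem bA {s : ℕ → ℝ} {B t : ℝ} (h : ∀ n, |s n| ≤ B) (h0 : 0 ≤ t) (h1 : t < 1) : |A s t| ≤ B := by
  simpa [A] using tsum_of_norm_bounded ((geo h0 h1).mul_right B) (bd h h0 h1)

theorem fin (t : ℝ) (n : ℕ) : ∑ k ∈ range n, (1 - t) * t ^ k = 1 - t ^ n := by
  rw [← mul_sum, mul_neg_geom_sum]

theorem one {s : ℕ → ℝ} {B t : ℝ} (h : ∀ n, |s n| ≤ B) (h0 : 0 ≤ t) (h1 : t < 1) (n : ℕ) :
    |∑ k ∈ range n, (1 - t) * t ^ k * s k - A s t * (1 - t ^ n)| ≤ 2 * B * (t ^ n * (1 - t ^ n)) := by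
  have a : |∑ k ∈ range n, (1 - t) * t ^ k * s k| ≤ (1 - t ^ n) * B := by
    rw [← fin, sum_mul]; exact (abs_sum_le_sum_abs _ _).trans (sum_le_sum fun k _ => bd h h0 h1 k)
  have b := (sA h h0 h1).sum_add_tsum_nat_add n
  have c := bA (s := fun k => s (k + n)) (fun k => h _) h0 h1
  have d : ∑' k, (1 - t) * t ^ (k + n) * s (k + n) = t ^ n * A (fun k => s (k + n)) t := by
    rw [A, ← tsum_mul_left]; congr 1; funext k; ring
  have e : 0 ≤ t ^ n := by positivity
  have f : 0 ≤ 1 - t ^ n := sub_nonneg.2 (pow_le_one₀ h0 h1.le)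
  rw [A, ← b, d]
  generalize ∑ k ∈ range n, (1 - t) * t ^ k * s k = x at *
  generalize A (fun k => s (k + n)) t = y at *
  rw [abs_le] at *
  have := mul_nonneg e f
  constructor <;> nlinarith [mul_le_mul_of_nonneg_left a.1 e, mul_le_mul_of_nonneg_left a.2 e]

theorem core {s : ℕ → ℝ} {B L : ℝ} (h : ∀ n, |s n| ≤ B) (t : ℕ → ℝ) (h0 : ∀ i, 1 / 2 ≤ t i)
    (h1 : ∀ i, t i < 1) (h2 : ∀ i, t i ≤ t (i + 1) ^ 2) (hL : Tendsto (fun i => A s (t i)) atTop (𝓝 L)) :
    ∃ l, Adm s l L ∧ FM l := by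
  have p : ∀ i, 0 < t i := fun i => by linarith [h0 i]
  have q : ∀ i n, t i ^ n ≤ 1 := fun i n => pow_le_one₀ (p i).le (h1 i).le
  have B0 : 0 ≤ B := (abs_nonneg _).trans (h 0)
  have tl : ∀ n I, ∑ i ∈ range I, t i ^ n * (1 - t i ^ n) ≤ 2 := fun n I => by
    have : ∀ I, ∑ i ∈ range (I + 1), t i ^ n * (1 - t i ^ n) ≤ 1 + t I ^ n := fun I => by
      induction I with
      | zero => rw [sum_range_one]; nlinarith [q 0 n, pow_pos (p 0) n]
      | succ I ih =>
        have := pow_le_pow_left₀ (p I).le (h2 I) n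
        rw [pow_right_comm] at this
        rw [sum_range_succ]; nlinarith
    rcases I with _ | I
    · simp
    · linarith [this I, q I n]
  have nn : ∀ n i, 0 ≤ t i ^ n * (1 - t i ^ n) := fun n i =>
    mul_nonneg (pow_pos (p i) n).le (sub_nonneg.2 (q i n))
  have su : Summable fun i => 1 - t i := .of_nonneg_of_le (fun i => by linarith [h1 i])
    (fun i => by nlinarith [h0 i, h1 i]) ((summable_of_sum_range_le (nn 1) (tl 1)).mul_left 2)
  have sk : ∀ k n, Summable fun i => (1 - t i) ^ (k + 1) * t i ^ n := fun k n =>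
    .of_nonneg_of_le (fun i => mul_nonneg (pow_nonneg (by linarith [h1 i]) _) (pow_pos (p i) n).le)
      (fun i => (mul_le_of_le_one_right (pow_nonneg (by linarith [h1 i]) _) (q i n)).trans
        (pow_le_of_le_one (by linarith [h1 i]) (by linarith [p i]) (by omega))) su
  have s0 : ∀ n, Summable fun i => (1 - t i) * t i ^ n := fun n => by simpa using sk 0 n
  have hW : ∀ n, HasSum (fun i => 1 - t i ^ n) (∑ k ∈ range n, ∑' i, (1 - t i) * t i ^ k) := fun n => by
    simpa only [fin] using hasSum_sum fun k (_ : k ∈ range n) => (s0 k).hasSum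
  have hN : ∀ n, HasSum (fun i => ∑ k ∈ range n, (1 - t i) * t i ^ k * s k)
      (∑ k ∈ range n, (∑' i, (1 - t i) * t i ^ k) * s k) := fun n =>
    hasSum_sum fun k _ => (s0 k).hasSum.mul_right _
  have inf : Tendsto (fun n => ∑ k ∈ range n, ∑' i, (1 - t i) * t i ^ k) atTop atTop :=
    tendsto_atTop.2 fun c => by
      obtain ⟨I, hI⟩ := exists_nat_gt c
      have := tendsto_finsetSum (range I) fun i _ =>
        (tendsto_pow_atTop_nhds_zero_of_lt_one (p i).le (h1 i)).const_sub 1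
      filter_upwards [this.eventually (lt_mem_nhds (show c < _ by simpa using hI))] with n hn
      exact hn.le.trans (sum_le_hasSum _ (fun i _ => sub_nonneg.2 (q i n)) (hW n))
  refine ⟨fun k => ∑' i, (1 - t i) * t i ^ k, ⟨fun n => (s0 n).tsum_pos
    (fun i => mul_nonneg (by linarith [h1 i]) (pow_pos (p i) n).le) 0
    (mul_pos (by linarith [h1 0]) (pow_pos (p 0) n)), inf, ?_⟩, fun k n => ?_⟩
  · refine Metric.tendsto_atTop'.2 fun ε hε => ?_
    obtain ⟨I, hI⟩ := Metric.tendsto_atTop.1 hL (ε / 2) (by positivity)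
    obtain ⟨N, hN'⟩ := eventually_atTop.1
      (inf.eventually (eventually_gt_atTop ((I * (B + |L|) + 2 * B * 2) / (ε / 2))))
    refine ⟨N, fun n hn => ?_⟩
    have a := hN' n hn.le
    have w0 := lt_of_le_of_lt (by positivity) a
    rw [div_lt_iff₀ (by positivity)] at a
    have b := ((hN n).sub ((hW n).mul_left L)).norm_le_of_bounded (g := fun i => (ε / 2 * (1 - t i ^ n) +
      if i ∈ range I then B + |L| else 0) + 2 * B * (t i ^ n * (1 - t i ^ n)))
      ((((hW n).mul_left _).add (hasSum_sum_of_ne_finset_zero (s := range I) fun i hi => if_neg hi)).add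
        ((summable_of_sum_range_le (nn n) (tl n)).hasSum.mul_left _)) fun i => by
        have c := one h (p i).le (h1 i) n
        have d := sub_nonneg.2 (q i n)
        have e : |(A s (t i) - L) * (1 - t i ^ n)| ≤ ε / 2 * (1 - t i ^ n) +
            if i ∈ range I then B + |L| else 0 := by
          rw [abs_mul, abs_of_nonneg d]
          split_ifs with g
          · have := bA h (p i).le (h1 i)
            have := abs_sub (A s (t i)) L
            nlinarith [pow_pos (p i) n, abs_nonneg (A s (t i) - L)]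
          · have := hI i (by simpa using g)
            rw [Real.dist_eq] at this
            nlinarith
        rw [Real.norm_eq_abs]
        refine le_trans (le_of_eq (by congr 1; ring)) ((abs_add_le _ _).trans (add_le_add e c))
    have c := Real.tsum_le_of_sum_range_le (nn n) (tl n)
    rw [sum_congr rfl fun i hi => if_pos hi, sum_const, card_range, nsmul_eq_mul, Real.norm_eq_abs] at b
    rw [Real.dist_eq, div_sub' w0.ne', abs_div, abs_of_pos w0, div_lt_iff₀ w0, mul_comm _ L]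
    nlinarith
  · have : ∀ k n, D (fun k => ∑' i, (1 - t i) * t i ^ k) k n = ∑' i, (1 - t i) ^ (k + 1) * t i ^ n :=
      fun k => by
        induction k with
        | zero => intro n; simp [D]
        | succ k ih =>
          intro n
          simp only [D, ih]
          rw [← (sk k n).tsum_sub (sk k _)]; congr 1; funext i; ring
    rw [this]
    exact tsum_nonneg fun i => mul_nonneg (pow_nonneg (by linarith [h1 i]) _) (pow_pos (p i) n).le

noncomputable def τ : ℕ → ℝ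
  | 0 => 1 / 2
  | j + 1 => √(τ j)

theorem τ1 (j : ℕ) : 1 / 2 ≤ τ j ∧ τ j < 1 ∧ τ (j + 1) ^ 2 = τ j ∧ τ j ≤ τ (j + 1) := by
  have k : ∀ x : ℝ, 1 / 2 ≤ x → x < 1 → √x ^ 2 = x ∧ x ≤ √x := fun x a b =>
    ⟨Real.sq_sqrt (by linarith), Real.le_sqrt_of_sq_le (by nlinarith)⟩
  induction j with
  | zero => exact ⟨le_rfl, one_half_lt_one, k (1 / 2) le_rfl one_half_lt_one⟩
  | succ j ih =>
    have a := ih.1.trans ih.2.2.2
    have b : τ (j + 1) < 1 := by nlinarith [ih.2.1, ih.2.2.1]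
    exact ⟨a, b, k _ a b⟩

theorem τ2 (j i : ℕ) : τ (i + j) ^ 2 ^ j = τ i := by
  induction j with
  | zero => simp
  | succ j ih => rw [pow_succ', pow_mul, ← add_assoc, (τ1 _).2.2.1, ih]

theorem sub {s : ℕ → ℝ} {B a b : ℝ} (h : ∀ n, |s n| ≤ B) (hf : ∃ᶠ j in atTop, A s (τ j) ∈ Set.Icc a b) :
    ∃ l L, L ∈ Set.Icc a b ∧ Adm s l L ∧ FM l := by
  obtain ⟨L, h1, φ, h2, h3⟩ := isCompact_Icc.tendsto_subseq' hf
  obtain ⟨l, h4⟩ := core h (τ ∘ φ) (fun i => (τ1 _).1) (fun i => (τ1 _).2.1) (fun i => by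
    rw [Function.comp_apply, ← (τ1 _).2.2.1]
    exact pow_le_pow_left₀ (by linarith [(τ1 (φ i + 1)).1])
      (monotone_nat_of_le_succ (fun j => (τ1 j).2.2.2) (h2 i.lt_succ_self)) 2) h3
  exact ⟨l, L, h1, h4⟩

theorem blk (s : ℕ → ℝ) (h : ∀ n, 0 ≤ s n ∧ s n ≤ 1) (m : ℕ) (hm : ∀ k, Nat.log 2 k / 3 = m → s k = 1)
    (h0 : 0 < m) : 3 / 5 ≤ A s (τ (1 + 3 * m)) := by
  obtain ⟨a, b, -⟩ := τ1 (1 + 3 * m)
  have c := (sA (B := 1) (fun n => abs_le.2 ⟨by linarith [(h n).1], (h n).2⟩) (by linarith) b).sum_le_tsum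
    (Ico (2 ^ (3 * m)) (2 ^ (3 * m + 3))) fun k _ =>
      mul_nonneg (mul_nonneg (by linarith) (by positivity)) (h k).1
  rw [sum_congr rfl fun k hk => by
    have d := mem_Ico.1 hk
    have := Nat.le_log_of_pow_le (by norm_num) d.1
    have := Nat.log_lt_of_lt_pow (by rintro rfl; simp at d) d.2
    rw [hm k (by omega), mul_one], sum_Ico_eq_sub _ (Nat.pow_le_pow_right (by norm_num) (by omega)),
    fin, fin, pow_add 2, pow_mul (τ _), τ2] at c
  have e : τ 1 ^ 2 = 1 / 2 := (τ1 0).2.2.1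
  have f : τ 1 ^ 2 ^ 3 = 1 / 16 := by rw [show 2 ^ 3 = 2 * 4 from rfl, pow_mul, e]; norm_num
  have g : 7 / 10 ≤ τ 1 := by nlinarith [(τ1 1).1]
  rw [f] at c
  unfold A; linarith

theorem result : (∀ s, Bdd s → ∃ l L, Adm s l L ∧ FM l ∧ Antitone l) ∧
    ∃ (s l l' : ℕ → ℝ) (L L' : ℝ), Bdd s ∧ Adm s l L ∧ FM l ∧ Adm s l' L' ∧ FM l' ∧ L ≠ L' := by
  refine ⟨fun s ⟨B, h⟩ => ?_, ?_⟩
  · obtain ⟨l, L, -, a, b⟩ := sub h (Frequently.of_forall fun j =>
      abs_le.1 (bA h (by linarith [(τ1 j).1]) (τ1 j).2.1))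
    exact ⟨l, L, a, b, antitone_nat_of_succ_le fun n => sub_nonneg.1 (b 0 n)⟩
  let s : ℕ → ℝ := fun k => if Even (Nat.log 2 k / 3) then 1 else 0
  have h : ∀ n, 0 ≤ s n ∧ s n ≤ 1 := fun n => by simp only [s]; split_ifs <;> simp
  have hb : ∀ n, |s n| ≤ 1 := fun n => abs_le.2 ⟨by linarith [(h n).1], (h n).2⟩
  obtain ⟨l, L, a, b⟩ := sub (a := 3 / 5) (b := 1) hb (frequently_atTop.2 fun m =>
    ⟨_, by omega, blk s h (2 * m + 2) (fun k e => if_pos (by simp [e, parity_simps])) (by omega),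
      (abs_le.1 (bA hb (by linarith [(τ1 (1 + 3 * (2 * m + 2))).1]) (τ1 _).2.1)).2⟩)
  obtain ⟨l', L', c, d⟩ := sub (a := -1) (b := 2 / 5) hb (frequently_atTop.2 fun m => by
    have p := (τ1 (1 + 3 * (2 * m + 1))).1
    have q := (τ1 (1 + 3 * (2 * m + 1))).2.1
    refine ⟨_, by omega, (abs_le.1 (bA hb (by linarith) q)).1, ?_⟩
    have e := blk (fun k => 1 - s k) (fun n => ⟨by linarith [(h n).2], by linarith [(h n).1]⟩)
      (2 * m + 1) (fun k e => by simp [s, e, parity_simps]) (by omega)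
    simp only [A, mul_sub _ (1 : ℝ), mul_one] at e
    rw [(geo (by linarith) q).summable.tsum_sub (sA hb (by linarith) q), (geo (by linarith) q).tsum_eq] at e
    unfold A; linarith)
  exact ⟨s, l, l', L, L', ⟨1, hb⟩, b.1, b.2, d.1, d.2, fun e => by linarith [a.1, c.2]⟩

end Pool.Agent.Results.MP_968b24_an.Weights
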